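import Mathlib
import Pool.Agent.H361R2.InfCor2

/-! Infinite exact patterns of consecutive primes. -/

theorem Pool.Agent.Results.MP_3ec731_nt.InfiniteConsecutive.result :
    (∀ A : Set ℕ, A.Infinite → ∃ B : Set ℕ, B ⊆ A ∧ B.Infinite ∧
      ∀ M : ℕ, {n : ℕ | ∀ j ≤ M, (Nat.Prime (n + j) ↔ j ∈ B)}.Infinite) ∧
    (∀ ε : ℝ, 0 < ε → ∃ B : Set ℕ,
      (∃ᶠ X : ℕ in Filter.atTop, (Real.log X) ^ (1 - ε) ≤ ((B ∩ Set.Iio X).ncard : ℝ)) ∧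
      ∀ M : ℕ, {n : ℕ | ∀ j ≤ M, (Nat.Prime (n + j) ↔ j ∈ B)}.Infinite) :=
  ⟨fun A hA => Pool.Agent.H361R2.Inf.exact_shifts A hA,
    fun ε hε => Pool.Agent.H361R2.Inf.dense_pattern ε hε⟩
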