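import Mathlib
import Pool.Agent.H392R2.Pat6

open Finset

namespace Pool.Agent.Results.MP_3ec731_nt.PatternCount

open Pool.Agent.H392R2.Pat

/-- There are constants `c, C > 0` such that for all large `n` at least `exp (c √(n / log n))`
different admissible sets `H ⊆ {0, …, n}` with `0 ∈ H`, each with at least `c √(n / log n)`
elements, are realised as consecutive primes by some `N` with `n < N ≤ exp (C √(n log n))`. -/
theorem result : ∃ c C : ℝ, 0 < c ∧ 0 < C ∧ ∃ n₀ : ℕ, ∀ n : ℕ, n₀ ≤ n →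
    ∃ 𝓗 : Finset (Finset ℕ), Real.exp (c * Real.sqrt (n / Real.log n)) ≤ (#𝓗 : ℝ) ∧
      ∀ H ∈ 𝓗, 0 ∈ H ∧ (∀ h ∈ H, h ≤ n) ∧ c * Real.sqrt (n / Real.log n) ≤ (#H : ℝ) ∧
        (∀ p : ℕ, p.Prime → ∃ r : ℕ, ∀ h ∈ H, h % p ≠ r % p) ∧
        ∃ N : ℕ, n < N ∧ (N : ℝ) ≤ Real.exp (C * Real.sqrt (n * Real.log n)) ∧
          ∀ i : ℕ, (∃ h ∈ H, i ≤ h) → ((N + i).Prime ↔ i ∈ H) := by
  obtain ⟨K, hK1, hK⟩ := exists_K
  have hK0 : (1 : ℝ) ≤ K := by exact_mod_cast hK1
  set C₁ : ℝ := 768 * K with hC₁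
  have hC₁0 : 0 < C₁ := by positivity
  have hq0 : 0 < Real.sqrt C₁ := Real.sqrt_pos.mpr hC₁0
  have hq2 : Real.sqrt C₁ ^ 2 = C₁ := Real.sq_sqrt hC₁0.le
  -- largeness of `n`
  have hlarge : ∀ᶠ n : ℕ in Filter.atTop, 16 * C₁ * (Real.log n) ^ 3 ≤ n := by
    have h1 := (Real.isLittleO_pow_log_id_atTop (n := 3)).bound (c := 1 / (16 * C₁)) (by positivity)
    have h2 := tendsto_natCast_atTop_atTop (R := ℝ) |>.eventually h1
    filter_upwards [h2, Filter.eventually_ge_atTop 1] with n hn hn1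
    have hn0 : (1 : ℝ) ≤ n := by exact_mod_cast hn1
    rw [Real.norm_eq_abs, Real.norm_eq_abs, id, abs_of_nonneg (by positivity : (0 : ℝ) ≤ n),
      abs_of_nonneg (pow_nonneg (Real.log_nonneg hn0) 3)] at hn
    calc 16 * C₁ * (Real.log n) ^ 3 ≤ 16 * C₁ * (1 / (16 * C₁) * n) :=
          mul_le_mul_of_nonneg_left hn (by positivity)
      _ = n := by field_simp
  obtain ⟨n₁, hn₁⟩ := Filter.eventually_atTop.mp hlarge
  refine ⟨1 / (4 * Real.sqrt C₁), 12 * K / Real.sqrt C₁ + 1, by positivity, by positivity,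
    max n₁ 64, ?_⟩
  intro n hn
  have hn64 : 64 ≤ n := le_trans (le_max_right _ _) hn
  have hn0 : (64 : ℝ) ≤ n := by exact_mod_cast hn64
  have hnpos : (0 : ℝ) < n := by linarith
  have hlogn : 1 ≤ Real.log n := by
    rw [Real.le_log_iff_exp_le (by linarith)]
    have := Real.exp_one_lt_d9
    linarith
  have hl0 : 0 < Real.log n := by linarith
  have hbig := hn₁ n (le_trans (le_max_left _ _) hn)
  set s := Real.sqrt (n / Real.log n) with hs
  have hs2 : s ^ 2 = n / Real.log n := Real.sq_sqrt (by positivity)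
  have hs0 : 0 ≤ s := Real.sqrt_nonneg _
  -- s ≥ 4 √C₁ log n
  have hs4 : 4 * Real.sqrt C₁ * Real.log n ≤ s := by
    apply Real.le_sqrt_of_sq_le
    rw [le_div_iff₀ hl0]
    calc (4 * Real.sqrt C₁ * Real.log n) ^ 2 * Real.log n
        = 16 * (Real.sqrt C₁ ^ 2) * (Real.log n) ^ 3 := by ring
      _ = 16 * C₁ * (Real.log n) ^ 3 := by rw [hq2]
      _ ≤ n := hbig
  set J : ℕ := ⌊s / Real.sqrt C₁⌋₊ with hJ
  have hJle : (J : ℝ) ≤ s / Real.sqrt C₁ := Nat.floor_le (by positivity)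
  have hJge : s / Real.sqrt C₁ - 1 < J := by
    have := Nat.lt_floor_add_one (s / Real.sqrt C₁)
    rw [← hJ] at this
    linarith
  have hr : 4 * Real.log n ≤ s / Real.sqrt C₁ := by
    rw [le_div_iff₀ hq0]; linarith
  have hJhalf : s / (2 * Real.sqrt C₁) ≤ J := by
    have h1 : s / (2 * Real.sqrt C₁) = (s / Real.sqrt C₁) / 2 := by
      rw [div_div, mul_comm]
    rw [h1]; linarith
  have hJlog : 2 * Real.log n ≤ J := by
    have h1 : s / (2 * Real.sqrt C₁) = (s / Real.sqrt C₁) / 2 := by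
      rw [div_div, mul_comm]
    rw [h1] at hJhalf; linarith
  have hJ1 : 1 ≤ J := by
    have : (1 : ℝ) ≤ J := by linarith
    exact_mod_cast this
  have hJn : 768 * (K : ℝ) * (J : ℝ) ^ 2 * Real.log n ≤ n := by
    have h1 : (J : ℝ) ^ 2 ≤ (s / Real.sqrt C₁) ^ 2 := pow_le_pow_left₀ (Nat.cast_nonneg _) hJle 2
    rw [div_pow, hs2, hq2] at h1
    calc 768 * (K : ℝ) * (J : ℝ) ^ 2 * Real.log n = C₁ * Real.log n * (J : ℝ) ^ 2 := by rw [hC₁]; ring
      _ ≤ C₁ * Real.log n * (n / Real.log n / C₁) := mul_le_mul_of_nonneg_left h1 (by positivity)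
      _ = n := by field_simp
  have hpats := pats_big hn64 hK1 (hK n (by omega)) hJ1 hJn
  set M := n ^ (12 * K * J) with hM
  have hk : 1 ≤ 16 * J := by omega
  have hnp := npats_card (n := n) (k := 16 * J) (M := M) hk
  refine ⟨npats n (16 * J) M, ?_, ?_⟩
  · -- the count
    have h1 : (#(pats n (16 * J) M) : ℝ) ≤ (#(npats n (16 * J) M) : ℝ) * n := by exact_mod_cast hnp
    have h2 : 2 * (8 : ℝ) ^ J / n ≤ (#(npats n (16 * J) M) : ℝ) * n := hpats.trans h1
    have h3 : (n : ℝ) ^ 2 ≤ 4 ^ J := by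
      have h4 : (n : ℝ) ^ 2 = Real.exp (2 * Real.log n) := by
        rw [two_mul, Real.exp_add, Real.exp_log hnpos]; ring
      have h5 : (4 : ℝ) ^ J = Real.exp (J * Real.log 4) := by
        rw [mul_comm, Real.exp_mul, Real.exp_log (by norm_num), Real.rpow_natCast]
      rw [h4, h5]
      apply Real.exp_le_exp.mpr
      have h6 : 1 ≤ Real.log 4 := by
        rw [show (4 : ℝ) = 2 ^ 2 by norm_num, Real.log_pow]
        have := Real.log_two_gt_d9
        push_cast
        linarith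
      nlinarith
    have h4 : (2 : ℝ) ^ J ≤ (#(npats n (16 * J) M) : ℝ) := by
      rw [div_le_iff₀ hnpos] at h2
      have h5 : (8 : ℝ) ^ J = 2 ^ J * 4 ^ J := by rw [← mul_pow]; norm_num
      have h6 : (2 : ℝ) ^ J * (n : ℝ) ^ 2 ≤ (#(npats n (16 * J) M) : ℝ) * (n : ℝ) ^ 2 := by
        calc (2 : ℝ) ^ J * (n : ℝ) ^ 2 ≤ 2 ^ J * 4 ^ J := mul_le_mul_of_nonneg_left h3 (by positivity)
          _ ≤ 2 * (8 : ℝ) ^ J := by rw [h5]; nlinarith [show (0 : ℝ) < 2 ^ J * 4 ^ J by positivity]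
          _ ≤ (#(npats n (16 * J) M) : ℝ) * n * n := h2
          _ = _ := by ring
      exact le_of_mul_le_mul_right h6 (by positivity)
    refine le_trans ?_ h4
    have h5 : (2 : ℝ) ^ J = Real.exp (J * Real.log 2) := by
      rw [mul_comm, Real.exp_mul, Real.exp_log (by norm_num), Real.rpow_natCast]
    rw [h5]
    apply Real.exp_le_exp.mpr
    have h6 := Real.log_two_gt_d9
    calc 1 / (4 * Real.sqrt C₁) * s = (s / (2 * Real.sqrt C₁)) * (1 / 2) := by field_simp; ring
      _ ≤ J * (1 / 2) := mul_le_mul_of_nonneg_right hJhalf (by norm_num)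
      _ ≤ J * Real.log 2 := mul_le_mul_of_nonneg_left (by linarith) (Nat.cast_nonneg _)
  · intro H hH
    rw [npats, mem_image] at hH
    obtain ⟨A, hA, rfl⟩ := hH
    obtain ⟨_, h0, hle, hcard, hadm, N, hnN, hNM, hN⟩ := pattern_props hk hA
    refine ⟨h0, hle, ?_, hadm, N, hnN, ?_, hN⟩
    · have h1 : ((16 * J : ℕ) : ℝ) ≤ (#(nrm A) : ℝ) := by exact_mod_cast hcard
      push_cast at h1
      have h2 : 1 / (4 * Real.sqrt C₁) * s = (s / (2 * Real.sqrt C₁)) * (1 / 2) := by
        field_simp; ring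
      rw [h2]
      have h3 : (0 : ℝ) ≤ J := Nat.cast_nonneg _
      linarith
    · have h1 : (N : ℝ) ≤ M + n := by exact_mod_cast hNM
      have hsl : s * Real.log n = Real.sqrt (n * Real.log n) := by
        rw [hs]
        have h2 : (n : ℝ) * Real.log n = n / Real.log n * (Real.log n) ^ 2 := by field_simp
        rw [h2, Real.sqrt_mul (by positivity), Real.sqrt_sq hl0.le]
      have h2 : (M : ℝ) ≤ Real.exp (12 * K / Real.sqrt C₁ * Real.sqrt (n * Real.log n)) := by
        have h3 : (M : ℝ) = Real.exp (12 * K * J * Real.log n) := by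
          rw [hM]; push_cast
          rw [← Real.rpow_natCast, Real.rpow_def_of_pos hnpos]
          congr 1; push_cast; ring
        rw [h3]
        apply Real.exp_le_exp.mpr
        calc 12 * (K : ℝ) * J * Real.log n ≤ 12 * K * (s / Real.sqrt C₁) * Real.log n := by
              apply mul_le_mul_of_nonneg_right _ hl0.le
              exact mul_le_mul_of_nonneg_left hJle (by positivity)
          _ = 12 * K / Real.sqrt C₁ * (s * Real.log n) := by ring
          _ = _ := by rw [hsl]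
      have h3 : (n : ℝ) ≤ M := by
        rw [hM]
        exact_mod_cast Nat.le_self_pow (by
          have : 0 < 12 * K * J := by positivity
          omega) n
      have h4 : (1 : ℝ) ≤ Real.sqrt (n * Real.log n) := by
        rw [Real.one_le_sqrt]; nlinarith
      have h5 : (2 : ℝ) ≤ Real.exp (Real.sqrt (n * Real.log n)) := by
        have := Real.add_one_le_exp (Real.sqrt (n * Real.log n))
        linarith
      rw [add_mul, one_mul, Real.exp_add]
      have h6 : 0 < Real.exp (12 * K / Real.sqrt C₁ * Real.sqrt (n * Real.log n)) := Real.exp_pos _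
      nlinarith

end Pool.Agent.Results.MP_3ec731_nt.PatternCount
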