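import Mathlib
import Pool.Agent.H312R2.RG.Fin
import Pool.Agent.H312R2.RG.C4

set_option autoImplicit false

/-!
# A positive proportion of all patterns of every diameter up to the record scale of prime gaps

For every `m ≥ 2` there is `c > 0` such that for all large `x` and EVERY real `D` with
`log x ≤ D ≤ c log x (log₂ x)² log₄ x / (log₃ x)²`, at least `c D^(m-1)` admissible `m`-element sets
`H` of non-negative integers with `0 ∈ H` and `max H ≤ D` are each realised as consecutive primes by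
at least `x^(4/5)` integers `n ≤ x`.

Method: Maynard's sieve inside the record windows of helper256 and helper410 (TEAM RG: helper312
(design, weights, assembly), helper398 (covering with protected positions, class sums), helper378
(sums of the Maynard weights, counting of patterns), helper273 and helper909 (model), helper473
(Fourier bound), helper935 (characters), helper778 (class sums), helper898 (large sieve total),
helper777 (parameters), helper913).
-/

namespace Pool.Agent.Results.MP_3ec731_nt.RecordPatterns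

/-- `H` misses a residue class modulo every prime -/
def Admissible (H : Finset ℕ) : Prop := ∀ p : ℕ, p.Prime → ∃ r : ℕ, r < p ∧ ∀ h ∈ H, h % p ≠ r

/-- `n` realises `H` as consecutive primes: all `n + h`, `h ∈ H`, are primes, and no other
`n + y` with `0 ≤ y ≤ max H` is prime -/
def Realises (H : Finset ℕ) (n : ℕ) : Prop :=
  (∀ h ∈ H, (n + h).Prime) ∧ ∀ y : ℕ, (n + y).Prime → (∃ h ∈ H, y ≤ h) → y ∈ H

theorem result (m : ℕ) (hm : 2 ≤ m) : ∃ c : ℝ, 0 < c ∧ ∃ x₀ : ℕ, ∀ x : ℕ, x₀ ≤ x → ∀ D : ℝ,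
    Real.log x ≤ D →
    D ≤ c * (Real.log x * (Real.log (Real.log x)) ^ 2 *
        Real.log (Real.log (Real.log (Real.log x))) / (Real.log (Real.log (Real.log x))) ^ 2) →
    ∃ F : Finset (Finset ℕ), c * D ^ (m - 1) ≤ F.card ∧
      ∀ H ∈ F, H.card = m ∧ 0 ∈ H ∧ (∀ h ∈ H, (h : ℝ) ≤ D) ∧ Admissible H ∧
        ∃ G : Finset ℕ, (x : ℝ) ^ (4 / 5 : ℝ) ≤ G.card ∧
          ∀ n ∈ G, 1 ≤ n ∧ n ≤ x ∧ Realises H n := by
  classical
  obtain ⟨c, hc, x0, hx0⟩ := Pool.Agent.H312R2.RG.patterns_of Pool.Agent.H312R2.RG.mtrg m hm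
  refine ⟨c, hc, max x0 1, fun x hx D hD1 hD2 => ?_⟩
  refine ⟨Pool.Agent.H312R2.RG.FreqD m D x, hx0 x ((le_max_left _ _).trans hx) D hD1 hD2, fun H hH => ?_⟩
  unfold Pool.Agent.H312R2.RG.FreqD at hH
  rw [Finset.mem_filter, Pool.Agent.H312R2.mem_base] at hH
  obtain ⟨⟨⟨h1, h2⟩, h3⟩, h4, h5⟩ := hH
  refine ⟨h2, h3, fun a ha => ?_, h4, _, h5, fun n hn => ?_⟩
  · have h6 := Finset.mem_range.1 (h1 ha)
    have h7 : a ≤ ⌊D⌋₊ := by omega
    have hx1 : 1 ≤ x := (le_max_right _ _).trans hx
    have h8 : 0 ≤ D := by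
      have : 0 ≤ Real.log x := Real.log_nonneg (by exact_mod_cast hx1)
      linarith
    exact (Nat.le_floor_iff h8).1 h7
  · rw [Finset.mem_filter, Finset.mem_Icc] at hn
    exact ⟨hn.1.1, hn.1.2, hn.2⟩

end Pool.Agent.Results.MP_3ec731_nt.RecordPatterns
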